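import Pool.Agent.H.MP_a221c1_pr.Main

set_option autoImplicit false
open Classical

namespace Pool.Agent.Results.MP_a221c1_pr.PathFour
open Pool.Agent.H.MP_a221c1_pr

theorem result : ∃ q s t : ℕ, (SimpleGraph.pathGraph 4).maxDegree + 2 ≤ q ∧
    IsLeast {n | Mixed (SimpleGraph.pathGraph 4) q n} s ∧
    IsLeast {n | Mixed (SimpleGraph.pathGraph 4) (q + 1) n} t ∧ s < t := by
  obtain ⟨q, s, t, h, h'⟩ := main
  refine ⟨q, s, t, ?_, h'⟩
  have := (SimpleGraph.pathGraph 4).maxDegree_lt_card_verts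
  rw [Fintype.card_fin] at this
  omega

end Pool.Agent.Results.MP_a221c1_pr.PathFour
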